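import Pool.Agent.N656.MH.Frac

/-!
# Counting near coincidences of `k / m ^ α` and `l / n ^ α`
-/

set_option autoImplicit false

namespace Pool.Agent.N656.MH

open Finset

/-- the quadruples `(m, n, k, l)` -/
structure Near (α M N : ℝ) (z : ℕ × ℕ × ℕ × ℕ) : Prop where
  m1 : M ≤ z.1
  m2 : (z.1 : ℝ) < 2 * M
  n1 : N ≤ z.2.1
  n2 : (z.2.1 : ℝ) < 2 * N
  k0 : 1 ≤ z.2.2.1
  l0 : 1 ≤ z.2.2.2
  k1 : (z.2.2.1 : ℝ) ≤ 3 * (z.1 : ℝ) ^ α
  l1 : (z.2.2.2 : ℝ) ≤ 3 * (z.2.1 : ℝ) ^ α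
  l2 : (z.2.1 : ℝ) ^ α ≤ 2 * (z.2.2.2 : ℝ)
  near : |(z.2.2.1 : ℝ) / (z.1 : ℝ) ^ α - (z.2.2.2 : ℝ) / (z.2.1 : ℝ) ^ α| ≤ 2 / (M * M ^ α)

/-- the constant `3 * 2 ^ α` -/
noncomputable def cc (α : ℝ) : ℝ := 3 * 2 ^ α

theorem cc_pos (α : ℝ) : 0 < cc α := by unfold cc; positivity

variable {α M N : ℝ} {F : Finset (ℕ × ℕ × ℕ × ℕ)}

theorem k_le (hα : 1 ≤ α) (hM : 4 ≤ M) {z : ℕ × ℕ × ℕ × ℕ} (h : Near α M N z) :
    (z.2.2.1 : ℝ) ≤ cc α * M ^ α := by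
  refine h.k1.trans ?_
  have h1 : (z.1 : ℝ) ^ α ≤ (2 * M) ^ α :=
    Real.rpow_le_rpow (Nat.cast_nonneg _) h.m2.le (by linarith)
  rw [Real.mul_rpow (by norm_num) (by linarith)] at h1
  unfold cc
  linarith

theorem l_le (hα : 1 ≤ α) (hN : 4 ≤ N) {z : ℕ × ℕ × ℕ × ℕ} (h : Near α M N z) :
    (z.2.2.2 : ℝ) ≤ cc α * N ^ α := by
  refine h.l1.trans ?_
  have h1 : (z.2.1 : ℝ) ^ α ≤ (2 * N) ^ α :=
    Real.rpow_le_rpow (Nat.cast_nonneg _) h.n2.le (by linarith)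
  rw [Real.mul_rpow (by norm_num) (by linarith)] at h1
  unfold cc
  linarith

theorem near1 (hα : 1 ≤ α) (hM : 4 ≤ M) (hN : 4 ≤ N) {z : ℕ × ℕ × ℕ × ℕ} (h : Near α M N z) :
    |(z.2.2.1 : ℝ) / z.2.2.2 - ((z.1 : ℝ) / z.2.1) ^ α| ≤
      4 / (M * M ^ α) * (2 ^ α * M ^ α) / N ^ α := by
  have hm : (0 : ℝ) < z.1 := by linarith [h.m1]
  have hn : (0 : ℝ) < z.2.1 := by linarith [h.n1]
  have hl : (0 : ℝ) < z.2.2.2 := by exact_mod_cast h.l0
  have hma : 0 < (z.1 : ℝ) ^ α := Real.rpow_pos_of_pos hm _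
  have hna : 0 < (z.2.1 : ℝ) ^ α := Real.rpow_pos_of_pos hn _
  have hMa : 0 < M ^ α := Real.rpow_pos_of_pos (by linarith) _
  have hNa : 0 < N ^ α := Real.rpow_pos_of_pos (by linarith) _
  have e1 : (z.2.2.1 : ℝ) / z.2.2.2 - ((z.1 : ℝ) / z.2.1) ^ α =
      ((z.2.2.1 : ℝ) / (z.1 : ℝ) ^ α - (z.2.2.2 : ℝ) / (z.2.1 : ℝ) ^ α) *
        ((z.1 : ℝ) ^ α / z.2.2.2) := by
    rw [Real.div_rpow hm.le hn.le]
    field_simp
  rw [e1, abs_mul, abs_of_pos (div_pos hma hl)]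
  have h1 : (z.1 : ℝ) ^ α ≤ 2 ^ α * M ^ α := by
    rw [← Real.mul_rpow (by norm_num) (by linarith)]
    exact Real.rpow_le_rpow hm.le h.m2.le (by linarith)
  have h2 : N ^ α ≤ 2 * (z.2.2.2 : ℝ) :=
    (Real.rpow_le_rpow (by linarith) h.n1 (by linarith)).trans h.l2
  have h3 : (z.1 : ℝ) ^ α / z.2.2.2 ≤ 2 ^ α * M ^ α / (N ^ α / 2) := by
    apply div_le_div₀ (by positivity) h1 (by positivity)
    linarith
  calc _ ≤ 2 / (M * M ^ α) * (2 ^ α * M ^ α / (N ^ α / 2)) :=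
        mul_le_mul h.near h3 (by positivity) (by positivity)
    _ = _ := by field_simp; ring

theorem near2 (hα : 1 ≤ α) (hM : 4 ≤ M) (hN : 4 ≤ N) {z : ℕ × ℕ × ℕ × ℕ} (h : Near α M N z) :
    |(z.1 : ℝ) / z.2.1 - ((z.2.2.1 : ℝ) / z.2.2.2) ^ (1 / α)| ≤ 8 / (M ^ α * N) := by
  have hα0 : 0 < α := by linarith
  have hm : (0 : ℝ) < z.1 := by linarith [h.m1]
  have hn : (0 : ℝ) < z.2.1 := by linarith [h.n1]
  have hk : (0 : ℝ) < z.2.2.1 := by exact_mod_cast h.k0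
  have hl : (0 : ℝ) < z.2.2.2 := by exact_mod_cast h.l0
  have hma : 0 < (z.1 : ℝ) ^ α := Real.rpow_pos_of_pos hm _
  have hna : 0 < (z.2.1 : ℝ) ^ α := Real.rpow_pos_of_pos hn _
  have hMa : 0 < M ^ α := Real.rpow_pos_of_pos (by linarith) _
  set t : ℝ := (z.1 : ℝ) / z.2.1 with ht
  set t0 : ℝ := ((z.2.2.1 : ℝ) / z.2.2.2) ^ (1 / α) with ht0
  have htp : 0 < t := by positivity
  have ht0p : 0 < t0 := by positivity
  set s : ℝ := t0 / t with hs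
  have hsp : 0 < s := by positivity
  have e1 : s ^ α - 1 = ((z.2.2.1 : ℝ) / (z.1 : ℝ) ^ α - (z.2.2.2 : ℝ) / (z.2.1 : ℝ) ^ α) *
        ((z.2.1 : ℝ) ^ α / z.2.2.2) := by
    rw [hs, Real.div_rpow ht0p.le htp.le, ht0, ← Real.rpow_mul (by positivity),
      one_div_mul_cancel hα0.ne', Real.rpow_one, ht, Real.div_rpow hm.le hn.le]
    field_simp
  have h1 : |s ^ α - 1| ≤ 4 / (M * M ^ α) := by
    rw [e1, abs_mul, abs_of_pos (div_pos hna hl)]
    have h3 : (z.2.1 : ℝ) ^ α / z.2.2.2 ≤ 2 := by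
      rw [div_le_iff₀ hl]; exact h.l2
    calc _ ≤ 2 / (M * M ^ α) * 2 := mul_le_mul h.near h3 (by positivity) (by positivity)
      _ = _ := by ring
  have h2 : |s - 1| ≤ 4 / (M * M ^ α) := by
    rw [abs_le] at h1 ⊢
    rcases le_or_gt 1 s with h3 | h3
    · have h4 : s ≤ s ^ α := by
        calc s = s ^ (1 : ℝ) := (Real.rpow_one s).symm
          _ ≤ s ^ α := Real.rpow_le_rpow_of_exponent_le h3 hα
      constructor
      · have : 0 < 4 / (M * M ^ α) := by positivity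
        linarith
      · linarith [h1.2]
    · have h4 : s ^ α ≤ s := by
        calc s ^ α ≤ s ^ (1 : ℝ) := Real.rpow_le_rpow_of_exponent_ge hsp h3.le hα
          _ = s := Real.rpow_one s
      constructor
      · linarith [h1.1]
      · have : 0 < 4 / (M * M ^ α) := by positivity
        linarith
  have h3 : t ≤ 2 * M / N := by
    rw [ht]
    exact div_le_div₀ (by linarith) h.m2.le (by linarith) h.n1
  have e2 : t - t0 = t * (1 - s) := by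
    rw [hs]; field_simp
  rw [e2, abs_mul, abs_of_pos htp, abs_sub_comm]
  calc t * |s - 1| ≤ (2 * M / N) * (4 / (M * M ^ α)) :=
        mul_le_mul h3 h2 (abs_nonneg _) (by positivity)
    _ = _ := by
        have : M ≠ 0 := by linarith
        have : N ≠ 0 := by linarith
        field_simp
        ring

/-- the first bound for a fibre -/
theorem fib1 (hα : 1 ≤ α) (hM : 4 ≤ M) (hN : 4 ≤ N) (hF : ∀ z ∈ F, Near α M N z) {g u : ℕ}
    (hg : 0 < g) (hu : 0 < u)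
    (hgu : ∀ z ∈ F, Nat.gcd z.1 z.2.1 = u ∧ Nat.gcd z.2.2.1 z.2.2.2 = g) :
    (F.card : ℝ) ≤ 4 * (M * N) / u ^ 2 +
      32 * 2 ^ α * cc α ^ 2 * (N * N ^ α) / ((g : ℝ) ^ 2 * (u : ℝ) ^ 2) := by
  classical
  have hu0 : (0 : ℝ) < u := by exact_mod_cast hu
  have hg0 : (0 : ℝ) < g := by exact_mod_cast hg
  have hMa : 0 < M ^ α := Real.rpow_pos_of_pos (by linarith) _
  have hNa : 0 < N ^ α := Real.rpow_pos_of_pos (by linarith) _
  have hc := cc_pos α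
  set δ : ℝ := 4 / (M * M ^ α) * (2 ^ α * M ^ α) / N ^ α with hδ
  set B : ℝ := cc α * N ^ α / g with hB
  have key := card_fib F (fun z => (z.1 / u, z.2.1 / u))
    (Icc 1 ⌊2 * M / u⌋₊ ×ˢ Icc 1 ⌊2 * N / u⌋₊) ?_ (K := 1 + 2 * δ * B ^ 2) ?_
  · refine key.trans ?_
    have h1 := card_box (x := 2 * M / u) (y := 2 * N / u) (by positivity) (by positivity)
    have h2 : 0 ≤ 1 + 2 * δ * B ^ 2 := by positivity
    refine (mul_le_mul_of_nonneg_right h1 h2).trans (le_of_eq ?_)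
    rw [hδ, hB]
    field_simp
    ring
  · intro z hz
    have h := hF z hz
    obtain ⟨h1, h2⟩ := hgu z hz
    have hm : 0 < z.1 := by
      have : (0 : ℝ) < z.1 := by linarith [h.m1]
      exact_mod_cast this
    have hn : 0 < z.2.1 := by
      have : (0 : ℝ) < z.2.1 := by linarith [h.n1]
      exact_mod_cast this
    have d1 : u ∣ z.1 := h1 ▸ Nat.gcd_dvd_left _ _
    have d2 : u ∣ z.2.1 := h1 ▸ Nat.gcd_dvd_right _ _
    rw [mem_product, mem_Icc, mem_Icc]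
    refine ⟨⟨Nat.div_pos (Nat.le_of_dvd hm d1) hu, ?_⟩,
      ⟨Nat.div_pos (Nat.le_of_dvd hn d2) hu, ?_⟩⟩
    · apply Nat.le_floor
      rw [Nat.cast_div d1 hu0.ne']
      exact div_le_div_of_nonneg_right h.m2.le hu0.le
    · apply Nat.le_floor
      rw [Nat.cast_div d2 hu0.ne']
      exact div_le_div_of_nonneg_right h.n2.le hu0.le
  · intro w hw
    set F' := F.filter (fun z => (z.1 / u, z.2.1 / u) = w) with hF'
    set ψ : ℕ × ℕ × ℕ × ℕ → ℕ × ℕ := fun z => (z.2.2.1 / g, z.2.2.2 / g) with hψ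
    have hinj : Set.InjOn ψ F' := by
      intro z hz z' hz' hzz
      have hz1 := (mem_filter.1 (mem_coe.1 hz))
      have hz2 := (mem_filter.1 (mem_coe.1 hz'))
      obtain ⟨a1, a2⟩ := hgu z hz1.1
      obtain ⟨b1, b2⟩ := hgu z' hz2.1
      have e := hz1.2.trans hz2.2.symm
      simp only [Prod.mk.injEq] at e
      simp only [hψ, Prod.mk.injEq] at hzz
      have c1 : z.1 = z'.1 := (Nat.div_left_inj (a1 ▸ Nat.gcd_dvd_left _ _)
        (b1 ▸ Nat.gcd_dvd_left _ _)).1 e.1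
      have c2 : z.2.1 = z'.2.1 := (Nat.div_left_inj (a1 ▸ Nat.gcd_dvd_right _ _)
        (b1 ▸ Nat.gcd_dvd_right _ _)).1 e.2
      have c3 : z.2.2.1 = z'.2.2.1 := (Nat.div_left_inj (a2 ▸ Nat.gcd_dvd_left _ _)
        (b2 ▸ Nat.gcd_dvd_left _ _)).1 hzz.1
      have c4 : z.2.2.2 = z'.2.2.2 := (Nat.div_left_inj (a2 ▸ Nat.gcd_dvd_right _ _)
        (b2 ▸ Nat.gcd_dvd_right _ _)).1 hzz.2
      exact Prod.ext c1 (Prod.ext c2 (Prod.ext c3 c4))
    rw [← card_image_of_injOn hinj]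
    apply spacing (x := ((w.1 : ℝ) / w.2) ^ α) _ (by positivity) (by positivity)
    intro p hp
    obtain ⟨z, hz, rfl⟩ := mem_image.1 hp
    have hz1 := mem_filter.1 hz
    have h := hF z hz1.1
    obtain ⟨a1, a2⟩ := hgu z hz1.1
    have d3 : g ∣ z.2.2.1 := a2 ▸ Nat.gcd_dvd_left _ _
    have d4 : g ∣ z.2.2.2 := a2 ▸ Nat.gcd_dvd_right _ _
    have d1 : u ∣ z.1 := a1 ▸ Nat.gcd_dvd_left _ _
    have d2 : u ∣ z.2.1 := a1 ▸ Nat.gcd_dvd_right _ _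
    refine ⟨Nat.div_pos (Nat.le_of_dvd h.l0 d4) hg, ?_, ?_, ?_⟩
    · simp only [hψ]
      rw [← a2]
      exact Nat.coprime_div_gcd_div_gcd (Nat.gcd_pos_of_pos_left _ h.k0)
    · simp only [hψ]
      rw [Nat.cast_div d4 hg0.ne', hB]
      exact div_le_div_of_nonneg_right (l_le hα hN h) hg0.le
    · simp only [hψ]
      rw [Nat.cast_div d3 hg0.ne', Nat.cast_div d4 hg0.ne', div_div_div_cancel_right₀ hg0.ne']
      have e := hz1.2
      rw [← e]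
      simp only
      rw [Nat.cast_div d1 hu0.ne', Nat.cast_div d2 hu0.ne', div_div_div_cancel_right₀ hu0.ne']
      exact near1 hα hM hN h

/-- the second bound for a fibre -/
theorem fib2 (hα : 1 ≤ α) (hM : 4 ≤ M) (hN : 4 ≤ N) (hF : ∀ z ∈ F, Near α M N z) {g u : ℕ}
    (hg : 0 < g) (hu : 0 < u)
    (hgu : ∀ z ∈ F, Nat.gcd z.1 z.2.1 = u ∧ Nat.gcd z.2.2.1 z.2.2.2 = g) :
    (F.card : ℝ) ≤ cc α ^ 2 * (M ^ α * N ^ α) / (g : ℝ) ^ 2 +
      64 * cc α ^ 2 * (N * N ^ α) / ((g : ℝ) ^ 2 * (u : ℝ) ^ 2) := by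
  classical
  have hu0 : (0 : ℝ) < u := by exact_mod_cast hu
  have hg0 : (0 : ℝ) < g := by exact_mod_cast hg
  have hMa : 0 < M ^ α := Real.rpow_pos_of_pos (by linarith) _
  have hNa : 0 < N ^ α := Real.rpow_pos_of_pos (by linarith) _
  have hc := cc_pos α
  set δ : ℝ := 8 / (M ^ α * N) with hδ
  set B : ℝ := 2 * N / u with hB
  have key := card_fib F (fun z => (z.2.2.1 / g, z.2.2.2 / g))
    (Icc 1 ⌊cc α * M ^ α / g⌋₊ ×ˢ Icc 1 ⌊cc α * N ^ α / g⌋₊) ?_ (K := 1 + 2 * δ * B ^ 2) ?_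
  · refine key.trans ?_
    have h1 := card_box (x := cc α * M ^ α / g) (y := cc α * N ^ α / g) (by positivity)
      (by positivity)
    have h2 : 0 ≤ 1 + 2 * δ * B ^ 2 := by positivity
    refine (mul_le_mul_of_nonneg_right h1 h2).trans (le_of_eq ?_)
    rw [hδ, hB]
    field_simp
    ring
  · intro z hz
    have h := hF z hz
    obtain ⟨h1, h2⟩ := hgu z hz
    have d1 : g ∣ z.2.2.1 := h2 ▸ Nat.gcd_dvd_left _ _
    have d2 : g ∣ z.2.2.2 := h2 ▸ Nat.gcd_dvd_right _ _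
    rw [mem_product, mem_Icc, mem_Icc]
    refine ⟨⟨Nat.div_pos (Nat.le_of_dvd h.k0 d1) hg, ?_⟩,
      ⟨Nat.div_pos (Nat.le_of_dvd h.l0 d2) hg, ?_⟩⟩
    · apply Nat.le_floor
      rw [Nat.cast_div d1 hg0.ne']
      exact div_le_div_of_nonneg_right (k_le hα hM h) hg0.le
    · apply Nat.le_floor
      rw [Nat.cast_div d2 hg0.ne']
      exact div_le_div_of_nonneg_right (l_le hα hN h) hg0.le
  · intro w hw
    set F' := F.filter (fun z => (z.2.2.1 / g, z.2.2.2 / g) = w) with hF'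
    set ψ : ℕ × ℕ × ℕ × ℕ → ℕ × ℕ := fun z => (z.1 / u, z.2.1 / u) with hψ
    have hinj : Set.InjOn ψ F' := by
      intro z hz z' hz' hzz
      have hz1 := (mem_filter.1 (mem_coe.1 hz))
      have hz2 := (mem_filter.1 (mem_coe.1 hz'))
      obtain ⟨a1, a2⟩ := hgu z hz1.1
      obtain ⟨b1, b2⟩ := hgu z' hz2.1
      have e := hz1.2.trans hz2.2.symm
      simp only [Prod.mk.injEq] at e
      simp only [hψ, Prod.mk.injEq] at hzz
      have c1 : z.1 = z'.1 := (Nat.div_left_inj (a1 ▸ Nat.gcd_dvd_left _ _)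
        (b1 ▸ Nat.gcd_dvd_left _ _)).1 hzz.1
      have c2 : z.2.1 = z'.2.1 := (Nat.div_left_inj (a1 ▸ Nat.gcd_dvd_right _ _)
        (b1 ▸ Nat.gcd_dvd_right _ _)).1 hzz.2
      have c3 : z.2.2.1 = z'.2.2.1 := (Nat.div_left_inj (a2 ▸ Nat.gcd_dvd_left _ _)
        (b2 ▸ Nat.gcd_dvd_left _ _)).1 e.1
      have c4 : z.2.2.2 = z'.2.2.2 := (Nat.div_left_inj (a2 ▸ Nat.gcd_dvd_right _ _)
        (b2 ▸ Nat.gcd_dvd_right _ _)).1 e.2
      exact Prod.ext c1 (Prod.ext c2 (Prod.ext c3 c4))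
    rw [← card_image_of_injOn hinj]
    apply spacing (x := ((w.1 : ℝ) / w.2) ^ (1 / α)) _ (by positivity) (by positivity)
    intro p hp
    obtain ⟨z, hz, rfl⟩ := mem_image.1 hp
    have hz1 := mem_filter.1 hz
    have h := hF z hz1.1
    obtain ⟨a1, a2⟩ := hgu z hz1.1
    have hm : 0 < z.1 := by
      have : (0 : ℝ) < z.1 := by linarith [h.m1]
      exact_mod_cast this
    have hn : 0 < z.2.1 := by
      have : (0 : ℝ) < z.2.1 := by linarith [h.n1]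
      exact_mod_cast this
    have d3 : g ∣ z.2.2.1 := a2 ▸ Nat.gcd_dvd_left _ _
    have d4 : g ∣ z.2.2.2 := a2 ▸ Nat.gcd_dvd_right _ _
    have d1 : u ∣ z.1 := a1 ▸ Nat.gcd_dvd_left _ _
    have d2 : u ∣ z.2.1 := a1 ▸ Nat.gcd_dvd_right _ _
    refine ⟨Nat.div_pos (Nat.le_of_dvd hn d2) hu, ?_, ?_, ?_⟩
    · simp only [hψ]
      rw [← a1]
      exact Nat.coprime_div_gcd_div_gcd (Nat.gcd_pos_of_pos_left _ hm)
    · simp only [hψ]
      rw [Nat.cast_div d2 hu0.ne', hB]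
      exact div_le_div_of_nonneg_right h.n2.le hu0.le
    · simp only [hψ]
      rw [Nat.cast_div d1 hu0.ne', Nat.cast_div d2 hu0.ne', div_div_div_cancel_right₀ hu0.ne']
      have e := hz1.2
      rw [← e]
      simp only
      rw [Nat.cast_div d3 hg0.ne', Nat.cast_div d4 hg0.ne', div_div_div_cancel_right₀ hg0.ne']
      exact near2 hα hM hN h

end Pool.Agent.N656.MH
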