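import Pool.Agent.N656.MH.Count

/-!
# The total number of near coincidences
-/

set_option autoImplicit false

namespace Pool.Agent.N656.MH

open Finset

variable {α M N : ℝ} {F : Finset (ℕ × ℕ × ℕ × ℕ)}

theorem sum_inv_sq_le (G : ℕ) : ∑ g ∈ Icc 1 G, 1 / (g : ℝ) ^ 2 ≤ 2 := by
  have h := sum_Ioo_inv_sq_le (α := ℝ) 0 (G + 1)
  have e : Ioo 0 (G + 1) = Icc 1 G := by
    ext x
    simp only [mem_Ioo, mem_Icc]
    omega
  rw [e] at h
  calc ∑ g ∈ Icc 1 G, 1 / (g : ℝ) ^ 2 = ∑ g ∈ Icc 1 G, ((g : ℝ) ^ 2)⁻¹ := by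
        apply sum_congr rfl; intro g _; rw [one_div]
    _ ≤ 2 / ((0 : ℕ) + 1) := h
    _ = 2 := by norm_num

theorem sum_inv_le {x : ℝ} (hx : 1 ≤ x) : ∑ u ∈ Icc 1 ⌊x⌋₊, 1 / (u : ℝ) ≤ 1 + Real.log x := by
  have h := harmonic_le_one_add_log ⌊x⌋₊
  rw [harmonic_eq_sum_Icc] at h
  push_cast at h
  have h1 : Real.log (⌊x⌋₊ : ℝ) ≤ Real.log x := by
    apply Real.log_le_log
    · exact_mod_cast Nat.floor_pos.2 hx
    · exact Nat.floor_le (by linarith)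
  calc ∑ u ∈ Icc 1 ⌊x⌋₊, 1 / (u : ℝ) = ∑ u ∈ Icc 1 ⌊x⌋₊, ((u : ℝ))⁻¹ := by
        apply sum_congr rfl; intro g _; rw [one_div]
    _ ≤ _ := by linarith

/-- **The number of near coincidences.** -/
theorem count (hα : 1 ≤ α) (hM : 4 ≤ M) (hN : 4 ≤ N) (hF : ∀ z ∈ F, Near α M N z) :
    (F.card : ℝ) ≤ 6 * cc α * √(M * N * (M ^ α * N ^ α)) * (1 + Real.log (2 * M)) +
      128 * 2 ^ α * cc α ^ 2 * (N * N ^ α) := by
  classical
  have hMa : 0 < M ^ α := Real.rpow_pos_of_pos (by linarith) _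
  have hNa : 0 < N ^ α := Real.rpow_pos_of_pos (by linarith) _
  have hc := cc_pos α
  set U : ℕ := ⌊2 * M⌋₊ with hU
  set G : ℕ := ⌊cc α * M ^ α⌋₊ with hG
  have hmaps : ∀ z ∈ F, (Nat.gcd z.1 z.2.1, Nat.gcd z.2.2.1 z.2.2.2) ∈ Icc 1 U ×ˢ Icc 1 G := by
    intro z hz
    have h := hF z hz
    have hm : 0 < z.1 := by
      have : (0 : ℝ) < z.1 := by linarith [h.m1]
      exact_mod_cast this
    rw [mem_product, mem_Icc, mem_Icc]
    refine ⟨⟨Nat.gcd_pos_of_pos_left _ hm, ?_⟩, ⟨Nat.gcd_pos_of_pos_left _ h.k0, ?_⟩⟩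
    · apply Nat.le_floor
      calc ((Nat.gcd z.1 z.2.1 : ℕ) : ℝ) ≤ z.1 := by
            exact_mod_cast Nat.le_of_dvd hm (Nat.gcd_dvd_left _ _)
        _ ≤ _ := h.m2.le
    · apply Nat.le_floor
      calc ((Nat.gcd z.2.2.1 z.2.2.2 : ℕ) : ℝ) ≤ z.2.2.1 := by
            exact_mod_cast Nat.le_of_dvd h.k0 (Nat.gcd_dvd_left _ _)
        _ ≤ _ := k_le hα hM h
  rw [card_eq_sum_card_fiberwise
    (f := fun z : ℕ × ℕ × ℕ × ℕ => (Nat.gcd z.1 z.2.1, Nat.gcd z.2.2.1 z.2.2.2))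
    (t := Icc 1 U ×ˢ Icc 1 G) (fun z hz => hmaps z hz)]
  push_cast
  set y : ℝ := cc α ^ 2 * (M ^ α * N ^ α) with hy
  set K : ℝ := 32 * 2 ^ α * cc α ^ 2 * (N * N ^ α) with hK
  have hy0 : 0 < y := by positivity
  have hK0 : 0 < K := by positivity
  have hK2 : 64 * cc α ^ 2 * (N * N ^ α) ≤ K := by
    have h2 : (2 : ℝ) ≤ 2 ^ α := by
      calc (2 : ℝ) = 2 ^ (1 : ℝ) := (Real.rpow_one 2).symm
        _ ≤ 2 ^ α := Real.rpow_le_rpow_of_exponent_le (by norm_num) hα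
    rw [hK]
    have : 0 < cc α ^ 2 * (N * N ^ α) := by positivity
    nlinarith
  have hterm : ∀ w ∈ Icc 1 U ×ˢ Icc 1 G,
      (((F.filter fun z => (Nat.gcd z.1 z.2.1, Nat.gcd z.2.2.1 z.2.2.2) = w).card : ℕ) : ℝ) ≤
        min (4 * (M * N) / (w.1 : ℝ) ^ 2) (y / (w.2 : ℝ) ^ 2) +
          K * (1 / (w.1 : ℝ) ^ 2) * (1 / (w.2 : ℝ) ^ 2) := by
    intro w hw
    rw [mem_product, mem_Icc, mem_Icc] at hw
    have hgu : ∀ z ∈ F.filter fun z => (Nat.gcd z.1 z.2.1, Nat.gcd z.2.2.1 z.2.2.2) = w,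
        Nat.gcd z.1 z.2.1 = w.1 ∧ Nat.gcd z.2.2.1 z.2.2.2 = w.2 := by
      intro z hz
      have := (mem_filter.1 hz).2
      rw [← this]
      exact ⟨rfl, rfl⟩
    have hF' : ∀ z ∈ F.filter fun z => (Nat.gcd z.1 z.2.1, Nat.gcd z.2.2.1 z.2.2.2) = w,
        Near α M N z := fun z hz => hF z (mem_filter.1 hz).1
    have hw1 : (0 : ℝ) < w.1 := by exact_mod_cast hw.1.1
    have hw2 : (0 : ℝ) < w.2 := by exact_mod_cast hw.2.1
    have b1 := fib1 hα hM hN hF' hw.2.1 hw.1.1 hgu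
    have b2 := fib2 hα hM hN hF' hw.2.1 hw.1.1 hgu
    have e1 : 32 * 2 ^ α * cc α ^ 2 * (N * N ^ α) / ((w.2 : ℝ) ^ 2 * (w.1 : ℝ) ^ 2) =
        K * (1 / (w.1 : ℝ) ^ 2) * (1 / (w.2 : ℝ) ^ 2) := by
      rw [hK]; field_simp
    have e2 : 64 * cc α ^ 2 * (N * N ^ α) / ((w.2 : ℝ) ^ 2 * (w.1 : ℝ) ^ 2) ≤
        K * (1 / (w.1 : ℝ) ^ 2) * (1 / (w.2 : ℝ) ^ 2) := by
      calc _ ≤ K / ((w.2 : ℝ) ^ 2 * (w.1 : ℝ) ^ 2) :=
            div_le_div_of_nonneg_right hK2 (by positivity)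
        _ = _ := by field_simp
    rw [e1] at b1
    rw [← min_add_add_right]
    exact le_min b1 (b2.trans (by linarith))
  refine (sum_le_sum hterm).trans ?_
  rw [sum_product, ]
  have hrow : ∀ u ∈ Icc 1 U, ∑ g ∈ Icc 1 G, (min (4 * (M * N) / (u : ℝ) ^ 2) (y / (g : ℝ) ^ 2) +
      K * (1 / (u : ℝ) ^ 2) * (1 / (g : ℝ) ^ 2)) ≤
        6 * cc α * √(M * N * (M ^ α * N ^ α)) * (1 / (u : ℝ)) + 2 * K * (1 / (u : ℝ) ^ 2) := by
    intro u hu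
    have hu0 : (0 : ℝ) < u := by exact_mod_cast (mem_Icc.1 hu).1
    rw [sum_add_distrib]
    apply add_le_add
    · refine (sum_min (by positivity) hy0 G).trans (le_of_eq ?_)
      have e : 4 * (M * N) / (u : ℝ) ^ 2 * y = (2 * cc α / u) ^ 2 * (M * N * (M ^ α * N ^ α)) := by
        rw [hy]; field_simp; ring
      rw [e, Real.sqrt_mul (by positivity), Real.sqrt_sq (by positivity)]
      ring
    · rw [← mul_sum]
      have := sum_inv_sq_le G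
      have h3 : 0 < K * (1 / (u : ℝ) ^ 2) := by positivity
      nlinarith
  refine (sum_le_sum hrow).trans ?_
  rw [sum_add_distrib, ← mul_sum, ← mul_sum]
  apply add_le_add
  · apply mul_le_mul_of_nonneg_left (sum_inv_le (by linarith)) (by positivity)
  · have := sum_inv_sq_le U
    rw [hK]
    have h3 : 0 < 32 * 2 ^ α * cc α ^ 2 * (N * N ^ α) := by positivity
    nlinarith

end Pool.Agent.N656.MH
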