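import Pool.Agent.N656.MH.Stm
import Pool.Agent.N656.MH.Tot

/-!
# The events and their intersections
-/

set_option autoImplicit false

namespace Pool.Agent.N656.MH

open Finset MeasureTheory

/-- the event -/
def Ev (α : ℝ) (n : ℕ) : Set ℝ := {β | (n : ℝ) * dn (β * (n : ℝ) ^ α) < 1}

theorem dn_nonneg (x : ℝ) : 0 ≤ dn x := abs_nonneg _

theorem dn_le (x : ℝ) (k : ℤ) : dn x ≤ |x - k| := round_le x k

theorem ev_eq (α : ℝ) (n : ℕ) :
    Ev α n = ⋃ k : ℤ, {β : ℝ | (n : ℝ) * |β * (n : ℝ) ^ α - k| < 1} := by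
  ext β
  simp only [Ev, Set.mem_ofPred_eq, Set.mem_iUnion]
  constructor
  · intro h
    exact ⟨round (β * (n : ℝ) ^ α), h⟩
  · rintro ⟨k, hk⟩
    exact lt_of_le_of_lt (mul_le_mul_of_nonneg_left (dn_le _ k) (Nat.cast_nonneg _)) hk

theorem ev_open (α : ℝ) (n : ℕ) : IsOpen (Ev α n) := by
  rw [ev_eq]
  apply isOpen_iUnion
  intro k
  apply isOpen_lt
  · fun_prop
  · fun_prop

theorem ev_meas (α : ℝ) (n : ℕ) : MeasurableSet (Ev α n) := (ev_open α n).measurableSet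

/-- the measure -/
noncomputable def mu : Measure ℝ := volume.restrict (Set.Icc (1 : ℝ) 2)

instance : IsProbabilityMeasure mu := ⟨by
  rw [mu, Measure.restrict_apply_univ, Real.volume_Icc]
  norm_num⟩

/-- the pairs `(k, l)` -/
noncomputable def SS (α M N : ℝ) (K L m n : ℕ) : Finset (ℕ × ℕ) := by
  classical
  exact (Icc 1 K ×ˢ Icc 1 L).filter fun p => Near α M N (m, n, p.1, p.2)

/-- the quadruples -/
noncomputable def FF (α : ℝ) (i j K L : ℕ) : Finset (ℕ × ℕ × ℕ × ℕ) := by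
  classical
  exact (Ico (2 ^ i) (2 ^ (i + 1)) ×ˢ Ico (2 ^ j) (2 ^ (j + 1)) ×ˢ Icc 1 K ×ˢ Icc 1 L).filter
    (Near α (2 ^ i) (2 ^ j))

theorem FF_card (α : ℝ) (i j K L : ℕ) :
    (FF α i j K L).card = ∑ m ∈ Ico (2 ^ i) (2 ^ (i + 1)), ∑ n ∈ Ico (2 ^ j) (2 ^ (j + 1)),
      (SS α (2 ^ i) (2 ^ j) K L m n).card := by
  classical
  unfold FF SS
  simp only [card_filter, sum_product]

theorem a_ge {α : ℝ} (hα : 1 ≤ α) {n : ℕ} (hn : 1 ≤ n) : (n : ℝ) ≤ (n : ℝ) ^ α := by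
  calc (n : ℝ) = (n : ℝ) ^ (1 : ℝ) := (Real.rpow_one _).symm
    _ ≤ (n : ℝ) ^ α := Real.rpow_le_rpow_of_exponent_le (by exact_mod_cast hn) hα

/-- the natural number near `β n ^ α` -/
theorem near_nat {α : ℝ} (hα : 1 ≤ α) {n : ℕ} (hn : 4 ≤ n) {β : ℝ} (h1 : 1 ≤ β) (h2 : β ≤ 2)
    (hβ : β ∈ Ev α n) : ∃ k : ℕ, 1 ≤ k ∧ (k : ℝ) ≤ 3 * (n : ℝ) ^ α ∧ (n : ℝ) ^ α ≤ 2 * (k : ℝ) ∧
      |β * (n : ℝ) ^ α - k| < 1 / n := by
  have hn0 : (4 : ℝ) ≤ n := by exact_mod_cast hn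
  have ha := a_ge hα (show 1 ≤ n by omega)
  set a : ℝ := (n : ℝ) ^ α with haa
  have hd : dn (β * a) < 1 / n := by
    have : (n : ℝ) * dn (β * a) < 1 := hβ
    rw [lt_div_iff₀ (by linarith), mul_comm]
    exact this
  have hn1 : 1 / (n : ℝ) ≤ 1 / 4 := one_div_le_one_div_of_le (by norm_num) hn0
  unfold dn at hd
  have hd2 := abs_lt.1 hd
  have hβa : a ≤ β * a := by nlinarith
  have hβa2 : β * a ≤ 2 * a := by nlinarith
  have hr : (3 : ℝ) ≤ (round (β * a) : ℝ) := by linarith [hd2.2]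
  have hr' : (0 : ℤ) ≤ round (β * a) := by
    have : (0 : ℝ) ≤ (round (β * a) : ℝ) := by linarith
    exact_mod_cast this
  obtain ⟨k, hk⟩ := Int.eq_ofNat_of_zero_le hr'
  have hk' : (round (β * a) : ℝ) = k := by rw [hk]; push_cast; rfl
  rw [hk'] at hd hd2 hr
  refine ⟨k, ?_, ?_, ?_, hd⟩
  · have : (1 : ℝ) ≤ k := by linarith
    exact_mod_cast this
  · linarith [hd2.1]
  · linarith [hd2.2]

/-- the measure of an intersection -/
theorem inter_le {α : ℝ} (hα : 1 ≤ α) {M N : ℝ} (hM : 4 ≤ M) (hMN : M ≤ N) {K L m n : ℕ}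
    (hm1 : M ≤ m) (hm2 : (m : ℝ) < 2 * M) (hn1 : N ≤ n) (hn2 : (n : ℝ) < 2 * N)
    (hK : 3 * (m : ℝ) ^ α ≤ K) (hL : 3 * (n : ℝ) ^ α ≤ L) :
    mu.real (Ev α m ∩ Ev α n) ≤ (SS α M N K L m n).card * (2 / (N * N ^ α)) := by
  classical
  have hm4 : 4 ≤ m := by
    have : (4 : ℝ) ≤ m := by linarith
    exact_mod_cast this
  have hn4 : 4 ≤ n := by
    have : (4 : ℝ) ≤ n := by linarith
    exact_mod_cast this
  have hM0 : (0 : ℝ) < M := by linarith
  have hN0 : (0 : ℝ) < N := by linarith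
  have hm0 : (0 : ℝ) < m := by linarith
  have hn0 : (0 : ℝ) < n := by linarith
  have hma : 0 < (m : ℝ) ^ α := Real.rpow_pos_of_pos hm0 _
  have hna : 0 < (n : ℝ) ^ α := Real.rpow_pos_of_pos hn0 _
  have hMa : 0 < M ^ α := Real.rpow_pos_of_pos (by linarith) _
  have hNa : 0 < N ^ α := Real.rpow_pos_of_pos (by linarith) _
  have hsub : (Ev α m ∩ Ev α n) ∩ Set.Icc 1 2 ⊆ ⋃ p ∈ SS α M N K L m n,
      Set.Ioo (((p.2 : ℝ) - 1 / n) / (n : ℝ) ^ α) (((p.2 : ℝ) + 1 / n) / (n : ℝ) ^ α) := by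
    rintro β ⟨⟨hβ1, hβ2⟩, hb1, hb2⟩
    obtain ⟨k, k0, k1, k2, k3⟩ := near_nat hα hm4 hb1 hb2 hβ1
    obtain ⟨l, l0, l1, l2, l3⟩ := near_nat hα hn4 hb1 hb2 hβ2
    have l4 := abs_lt.1 l3
    simp only [Set.mem_iUnion, exists_prop]
    refine ⟨(k, l), ?_, ?_, ?_⟩
    · unfold SS
      rw [mem_filter, mem_product, mem_Icc, mem_Icc]
      refine ⟨⟨⟨k0, ?_⟩, l0, ?_⟩, ⟨hm1, hm2, hn1, hn2, k0, l0, k1, l1, l2, ?_⟩⟩
      · have : (k : ℝ) ≤ K := by linarith
        exact_mod_cast this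
      · have : (l : ℝ) ≤ L := by linarith
        exact_mod_cast this
      · have e : (k : ℝ) / (m : ℝ) ^ α - (l : ℝ) / (n : ℝ) ^ α =
            -(β * (m : ℝ) ^ α - k) / (m : ℝ) ^ α + (β * (n : ℝ) ^ α - l) / (n : ℝ) ^ α := by
          field_simp
          ring
        simp only
        rw [e]
        refine (abs_add_le _ _).trans ?_
        rw [abs_div, abs_div, abs_neg, abs_of_pos hma, abs_of_pos hna]
        have b1 : |β * (m : ℝ) ^ α - k| / (m : ℝ) ^ α ≤ 1 / (M * M ^ α) := by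
          calc |β * (m : ℝ) ^ α - k| / (m : ℝ) ^ α ≤ (1 / m) / (m : ℝ) ^ α :=
                div_le_div_of_nonneg_right k3.le hma.le
            _ = 1 / (m * (m : ℝ) ^ α) := by rw [div_div]
            _ ≤ _ := by
                apply one_div_le_one_div_of_le (mul_pos hM0 hMa)
                exact mul_le_mul hm1 (Real.rpow_le_rpow (by linarith) hm1 (by linarith)) hMa.le
                  hm0.le
        have b2 : |β * (n : ℝ) ^ α - l| / (n : ℝ) ^ α ≤ 1 / (M * M ^ α) := by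
          calc |β * (n : ℝ) ^ α - l| / (n : ℝ) ^ α ≤ (1 / n) / (n : ℝ) ^ α :=
                div_le_div_of_nonneg_right l3.le hna.le
            _ = 1 / (n * (n : ℝ) ^ α) := by rw [div_div]
            _ ≤ _ := by
                apply one_div_le_one_div_of_le (mul_pos hM0 hMa)
                exact mul_le_mul (hMN.trans hn1)
                  (Real.rpow_le_rpow (by linarith) (hMN.trans hn1) (by linarith)) hMa.le hn0.le
        calc _ ≤ 1 / (M * M ^ α) + 1 / (M * M ^ α) := add_le_add b1 b2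
          _ = _ := by ring
    · simp only
      rw [div_lt_iff₀ hna]
      linarith
    · simp only
      rw [lt_div_iff₀ hna]
      linarith
  have hvol : mu (Ev α m ∩ Ev α n) ≤
      ∑ p ∈ SS α M N K L m n, ENNReal.ofReal (2 / (N * N ^ α)) := by
    rw [mu, Measure.restrict_apply ((ev_meas α m).inter (ev_meas α n))]
    refine (measure_mono hsub).trans ((measure_biUnion_finset_le _ _).trans ?_)
    apply sum_le_sum
    intro p _
    rw [Real.volume_Ioo]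
    apply ENNReal.ofReal_le_ofReal
    have e : ((p.2 : ℝ) + 1 / n) / (n : ℝ) ^ α - ((p.2 : ℝ) - 1 / n) / (n : ℝ) ^ α =
        2 / (n * (n : ℝ) ^ α) := by
      field_simp
      ring
    rw [e]
    apply div_le_div_of_nonneg_left (by norm_num) (mul_pos hN0 hNa)
    exact mul_le_mul hn1 (Real.rpow_le_rpow (by linarith) hn1 (by linarith)) hNa.le hn0.le
  rw [sum_const, nsmul_eq_mul] at hvol
  rw [Measure.real]
  refine ENNReal.toReal_le_of_le_ofReal (by positivity) (hvol.trans (le_of_eq ?_))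
  rw [ENNReal.ofReal_mul (Nat.cast_nonneg _), ENNReal.ofReal_natCast]

end Pool.Agent.N656.MH
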