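import Mathlib

/-!
# Near coincidences of fractions and powers of fractions
-/

set_option autoImplicit false

namespace Pool.Agent.N656.MH

open Finset

/-- reduced fractions with denominator at most `B` in an interval -/
theorem spacing (F : Finset (ℕ × ℕ)) {B δ x : ℝ} (hB : 0 < B) (hδ : 0 ≤ δ)
    (h : ∀ p ∈ F, 0 < p.2 ∧ Nat.Coprime p.1 p.2 ∧ (p.2 : ℝ) ≤ B ∧ |(p.1 : ℝ) / p.2 - x| ≤ δ) :
    (F.card : ℝ) ≤ 1 + 2 * δ * B ^ 2 := by
  classical
  set f : ℕ × ℕ → ℕ := fun p => ⌊((p.1 : ℝ) / p.2 - (x - δ)) * B ^ 2⌋₊ with hf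
  have hB2 : 0 < B ^ 2 := by positivity
  have hnn : ∀ p ∈ F, 0 ≤ ((p.1 : ℝ) / p.2 - (x - δ)) * B ^ 2 := by
    intro p hp
    have := (abs_le.1 (h p hp).2.2.2).1
    apply mul_nonneg _ hB2.le
    linarith
  have hmap : ∀ p ∈ F, f p ∈ range (⌊2 * δ * B ^ 2⌋₊ + 1) := by
    intro p hp
    rw [mem_range, Nat.lt_succ_iff]
    apply Nat.floor_le_floor
    have := (abs_le.1 (h p hp).2.2.2).2
    apply mul_le_mul_of_nonneg_right _ hB2.le
    linarith
  have hinj : Set.InjOn f F := by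
    intro p hp q hq hpq
    by_contra hne
    have hp1 := h p hp
    have hq1 := h q hq
    have hp0 : (0 : ℝ) < p.2 := by exact_mod_cast hp1.1
    have hq0 : (0 : ℝ) < q.2 := by exact_mod_cast hq1.1
    -- the fractions are different
    have hcross : (p.1 : ℤ) * q.2 - q.1 * p.2 ≠ 0 := by
      intro h0
      apply hne
      have h1 : p.1 * q.2 = q.1 * p.2 := by
        have : (p.1 : ℤ) * q.2 = q.1 * p.2 := by linarith
        exact_mod_cast this
      have h2 : p.2 ∣ q.2 := by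
        have : p.2 ∣ p.1 * q.2 := by rw [h1]; exact Dvd.intro_left _ rfl
        exact (hp1.2.1.symm.dvd_mul_left).1 this
      have h3 : q.2 ∣ p.2 := by
        have : q.2 ∣ q.1 * p.2 := by rw [← h1]; exact Dvd.intro_left _ rfl
        exact (hq1.2.1.symm.dvd_mul_left).1 this
      have h4 : p.2 = q.2 := Nat.dvd_antisymm h2 h3
      rw [h4] at h1
      have h5 : p.1 = q.1 := Nat.eq_of_mul_eq_mul_right hq1.1 h1
      exact Prod.ext h5 h4
    have h6 : (1 : ℝ) ≤ |(p.1 : ℝ) * q.2 - q.1 * p.2| := by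
      have : (1 : ℤ) ≤ |(p.1 : ℤ) * q.2 - q.1 * p.2| := Int.one_le_abs hcross
      exact_mod_cast this
    have h7 : |(p.1 : ℝ) / p.2 - q.1 / q.2| * B ^ 2 < 1 := by
      have e1 := Nat.floor_le (hnn p hp)
      have e2 := Nat.lt_floor_add_one (((p.1 : ℝ) / p.2 - (x - δ)) * B ^ 2)
      have e3 := Nat.floor_le (hnn q hq)
      have e4 := Nat.lt_floor_add_one (((q.1 : ℝ) / q.2 - (x - δ)) * B ^ 2)
      have e5 : (⌊((p.1 : ℝ) / p.2 - (x - δ)) * B ^ 2⌋₊ : ℝ) =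
          ⌊((q.1 : ℝ) / q.2 - (x - δ)) * B ^ 2⌋₊ := by
        exact_mod_cast hpq
      have e6 : |((p.1 : ℝ) / p.2 - q.1 / q.2) * B ^ 2| < 1 := by
        rw [abs_lt]
        constructor <;> nlinarith
      rwa [abs_mul, abs_of_pos hB2] at e6
    have h8 : |(p.1 : ℝ) / p.2 - q.1 / q.2| = |(p.1 : ℝ) * q.2 - q.1 * p.2| / (p.2 * q.2) := by
      rw [div_sub_div _ _ hp0.ne' hq0.ne', abs_div, abs_of_pos (mul_pos hp0 hq0)]
      ring_nf
    rw [h8] at h7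
    have h9 : (p.2 : ℝ) * q.2 ≤ B ^ 2 := by
      rw [sq]
      exact mul_le_mul hp1.2.2.1 hq1.2.2.1 hq0.le hB.le
    have h10 : 1 ≤ |(p.1 : ℝ) * q.2 - q.1 * p.2| / (p.2 * q.2) * B ^ 2 := by
      rw [div_mul_eq_mul_div, le_div_iff₀ (mul_pos hp0 hq0), one_mul]
      calc (p.2 : ℝ) * q.2 ≤ B ^ 2 := h9
        _ = 1 * B ^ 2 := by ring
        _ ≤ _ := mul_le_mul_of_nonneg_right h6 hB2.le
    linarith
  have h1 := card_le_card_of_injOn f hmap hinj
  rw [card_range] at h1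
  calc (F.card : ℝ) ≤ ((⌊2 * δ * B ^ 2⌋₊ + 1 : ℕ) : ℝ) := by exact_mod_cast h1
    _ = ⌊2 * δ * B ^ 2⌋₊ + 1 := by push_cast; ring
    _ ≤ 2 * δ * B ^ 2 + 1 := by
        have := Nat.floor_le (show 0 ≤ 2 * δ * B ^ 2 by positivity)
        linarith
    _ = _ := by ring

/-- cardinalities via the fibres of a map -/
theorem card_fib {ι κ : Type*} [DecidableEq κ] (F : Finset ι) (f : ι → κ) (T : Finset κ)
    (hT : ∀ z ∈ F, f z ∈ T) {K : ℝ} (hK : ∀ w ∈ T, ((F.filter (fun z => f z = w)).card : ℝ) ≤ K) :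
    (F.card : ℝ) ≤ T.card * K := by
  rw [card_eq_sum_card_fiberwise (f := f) (t := T) (fun z hz => hT z hz)]
  push_cast
  calc ∑ w ∈ T, ((F.filter (fun z => f z = w)).card : ℝ) ≤ ∑ _w ∈ T, K := sum_le_sum hK
    _ = _ := by rw [sum_const, nsmul_eq_mul]

/-- pairs of naturals below real bounds -/
theorem card_box {x y : ℝ} (hx : 0 ≤ x) (hy : 0 ≤ y) :
    (((Icc 1 ⌊x⌋₊ ×ˢ Icc 1 ⌊y⌋₊ : Finset (ℕ × ℕ))).card : ℝ) ≤ x * y := by
  rw [card_product, Nat.card_Icc, Nat.card_Icc, Nat.add_sub_cancel, Nat.add_sub_cancel,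
    Nat.cast_mul]
  exact mul_le_mul (Nat.floor_le hx) (Nat.floor_le hy) (Nat.cast_nonneg _) hx

/-- the sum of `min (x, y / g²)` -/
theorem sum_min {x y : ℝ} (hx : 0 < x) (hy : 0 < y) (G : ℕ) :
    ∑ g ∈ Icc 1 G, min x (y / (g : ℝ) ^ 2) ≤ 3 * √(x * y) := by
  set k : ℕ := ⌊√(y / x)⌋₊ with hk
  have hs : 0 < √(y / x) := Real.sqrt_pos.2 (by positivity)
  have e1 : x * √(y / x) = √(x * y) := by
    rw [Real.sqrt_mul hx.le, Real.sqrt_div hy.le]
    have : 0 < √x := Real.sqrt_pos.2 hx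
    field_simp
    nlinarith [Real.mul_self_sqrt hx.le]
  have e2 : y / √(y / x) = √(x * y) := by
    rw [div_eq_iff hs.ne', ← Real.sqrt_mul (by positivity)]
    rw [show x * y * (y / x) = y ^ 2 by field_simp]
    rw [Real.sqrt_sq hy.le]
  have hsplit : ∑ g ∈ Icc 1 G, min x (y / (g : ℝ) ^ 2) ≤
      ∑ g ∈ Icc 1 k, x + ∑ g ∈ Ioo k (G + 1), y * ((g : ℝ) ^ 2)⁻¹ := by
    have hsub : Icc 1 G ⊆ Icc 1 k ∪ Ioo k (G + 1) := by
      intro g hg
      rw [mem_Icc] at hg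
      rw [mem_union, mem_Icc, mem_Ioo]
      omega
    have hnn : ∀ g ∈ Icc 1 k ∪ Ioo k (G + 1), 0 ≤ min x (y / (g : ℝ) ^ 2) := by
      intro g _
      exact le_min hx.le (by positivity)
    calc ∑ g ∈ Icc 1 G, min x (y / (g : ℝ) ^ 2)
        ≤ ∑ g ∈ Icc 1 k ∪ Ioo k (G + 1), min x (y / (g : ℝ) ^ 2) :=
          sum_le_sum_of_subset_of_nonneg hsub fun g hg _ => hnn g hg
      _ ≤ ∑ g ∈ Icc 1 k, min x (y / (g : ℝ) ^ 2) + ∑ g ∈ Ioo k (G + 1), min x (y / (g : ℝ) ^ 2) := by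
          rw [← sum_union_inter]
          have : 0 ≤ ∑ g ∈ Icc 1 k ∩ Ioo k (G + 1), min x (y / (g : ℝ) ^ 2) :=
            sum_nonneg fun g hg => hnn g (mem_union_left _ (mem_inter.1 hg).1)
          linarith
      _ ≤ _ := by
          apply add_le_add
          · exact sum_le_sum fun g _ => min_le_left _ _
          · exact sum_le_sum fun g _ => (min_le_right _ _).trans (le_of_eq (by rw [div_eq_mul_inv]))
  have h1 : ∑ g ∈ Icc 1 k, x ≤ √(x * y) := by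
    rw [sum_const, nsmul_eq_mul, Nat.card_Icc, Nat.add_sub_cancel, ← e1, mul_comm]
    exact mul_le_mul_of_nonneg_left (Nat.floor_le hs.le) hx.le
  have h2 : ∑ g ∈ Ioo k (G + 1), y * ((g : ℝ) ^ 2)⁻¹ ≤ 2 * √(x * y) := by
    rw [← mul_sum]
    have h3 := sum_Ioo_inv_sq_le (α := ℝ) k (G + 1)
    calc y * ∑ g ∈ Ioo k (G + 1), ((g : ℝ) ^ 2)⁻¹ ≤ y * (2 / (k + 1)) :=
          mul_le_mul_of_nonneg_left h3 hy.le
      _ ≤ y * (2 / √(y / x)) := by
          apply mul_le_mul_of_nonneg_left _ hy.le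
          apply div_le_div_of_nonneg_left (by norm_num) hs
          exact (Nat.lt_floor_add_one _).le
      _ = 2 * (y / √(y / x)) := by ring
      _ = _ := by rw [e2]
  linarith

end Pool.Agent.N656.MH
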