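import Pool.Agent.N656.MH.Ev
import Pool.Agent.R335.MK.CE

/-!
# The second moment
-/

set_option autoImplicit false

namespace Pool.Agent.N656.MH

open Finset MeasureTheory Filter

/-- weight sum -/
theorem w_sum_aux (i : ℕ) : ∀ b : ℕ,
    (b ≤ i → ∑ j ∈ range b, ((1 : ℝ) / 2) ^ (i - j) * ((1 : ℝ) / 2) ^ (j - i) ≤
      ((1 : ℝ) / 2) ^ (i - b)) ∧
    (i ≤ b → ∑ j ∈ range b, ((1 : ℝ) / 2) ^ (i - j) * ((1 : ℝ) / 2) ^ (j - i) ≤
      3 - 2 * ((1 : ℝ) / 2) ^ (b - i)) := by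
  intro b
  induction b with
  | zero =>
    refine ⟨fun _ => by simp, fun h => ?_⟩
    have : i = 0 := by omega
    subst this
    norm_num
  | succ b ih =>
    refine ⟨fun h => ?_, fun h => ?_⟩
    · rw [sum_range_succ]
      have h1 := ih.1 (by omega)
      have e : b - i = 0 := by omega
      rw [e, pow_zero, mul_one]
      have e2 : i - b = (i - (b + 1)) + 1 := by omega
      rw [e2, pow_succ] at h1 ⊢
      linarith
    · rw [sum_range_succ]
      rcases Nat.lt_or_ge b i with hb | hb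
      · have h1 := ih.1 (by omega)
        have e : b - i = 0 := by omega
        rw [e, pow_zero, mul_one]
        have e2 : i - b = 1 := by omega
        have e3 : b + 1 - i = 0 := by omega
        rw [e2] at h1 ⊢
        rw [e3]
        norm_num at h1 ⊢
        linarith
      · have h1 := ih.2 hb
        have e : i - b = 0 := by omega
        rw [e, pow_zero, one_mul]
        have e2 : b + 1 - i = (b - i) + 1 := by omega
        rw [e2, pow_succ]
        linarith

theorem w_sum (i b : ℕ) :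
    ∑ j ∈ range b, ((1 : ℝ) / 2) ^ (i - j) * ((1 : ℝ) / 2) ^ (j - i) ≤ 3 := by
  rcases Nat.le_total b i with h | h
  · refine ((w_sum_aux i b).1 h).trans ?_
    have : ((1 : ℝ) / 2) ^ (i - b) ≤ 1 := pow_le_one₀ (by norm_num) (by norm_num)
    linarith
  · refine ((w_sum_aux i b).2 h).trans ?_
    have : 0 < ((1 : ℝ) / 2) ^ (b - i) := by positivity
    linarith

/-- the constant of the block sums -/
noncomputable def C1 (α : ℝ) : ℝ := 12 * cc α + 256 * 2 ^ α * cc α ^ 2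

theorem C1_pos (α : ℝ) : 0 < C1 α := by
  have := cc_pos α
  unfold C1
  positivity

/-- the sum over a block -/
noncomputable def blk (α : ℝ) (i j : ℕ) : ℝ :=
  ∑ m ∈ Ico (2 ^ i) (2 ^ (i + 1)), ∑ n ∈ Ico (2 ^ j) (2 ^ (j + 1)), mu.real (Ev α m ∩ Ev α n)

theorem blk_comm (α : ℝ) (i j : ℕ) : blk α i j = blk α j i := by
  unfold blk
  rw [sum_comm]
  refine sum_congr rfl fun m _ => sum_congr rfl fun n _ => ?_
  rw [Set.inter_comm]

theorem blk_le {α : ℝ} (hα : 1 ≤ α) {i j : ℕ} (hi : 2 ≤ i) (hij : i ≤ j) :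
    blk α i j ≤ C1 α * ((i + 2) * ((1 : ℝ) / 2) ^ (j - i) + 1) := by
  have h24 : ∀ t : ℕ, 2 ≤ t → (4 : ℝ) ≤ 2 ^ t := by
    intro t ht
    calc (4 : ℝ) = 2 ^ 2 := by norm_num
      _ ≤ 2 ^ t := pow_le_pow_right₀ (by norm_num) ht
  have hM : (4 : ℝ) ≤ 2 ^ i := h24 i hi
  have hN : (4 : ℝ) ≤ 2 ^ j := h24 j (hi.trans hij)
  have hMN : (2 : ℝ) ^ i ≤ 2 ^ j := pow_le_pow_right₀ (by norm_num) hij
  set M : ℝ := 2 ^ i with hMd
  set N : ℝ := 2 ^ j with hNd
  have hM0 : 0 < M := by linarith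
  have hN0 : 0 < N := by linarith
  have hMa : 0 < M ^ α := Real.rpow_pos_of_pos hM0 _
  have hNa : 0 < N ^ α := Real.rpow_pos_of_pos hN0 _
  set K : ℕ := ⌈3 * (2 * M) ^ α⌉₊ with hK
  set L : ℕ := ⌈3 * (2 * N) ^ α⌉₊ with hL
  have hcc := cc_pos α
  have hMNa : M ^ α / N ^ α ≤ M / N := by
    rw [← Real.div_rpow hM0.le hN0.le]
    have h1 : M / N ≤ 1 := (div_le_one hN0).2 hMN
    calc (M / N) ^ α ≤ (M / N) ^ (1 : ℝ) :=
          Real.rpow_le_rpow_of_exponent_ge (div_pos hM0 hN0) h1 hα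
      _ = M / N := Real.rpow_one _
  have hblk : blk α i j ≤ (FF α i j K L).card * (2 / (N * N ^ α)) := by
    rw [FF_card]
    push_cast
    rw [sum_mul]
    unfold blk
    refine sum_le_sum fun m hm => ?_
    rw [sum_mul]
    refine sum_le_sum fun n hn => ?_
    rw [mem_Ico] at hm hn
    have hm1 : M ≤ m := by rw [hMd]; exact_mod_cast hm.1
    have hm2 : (m : ℝ) < 2 * M := by
      have : (m : ℝ) < 2 ^ (i + 1) := by exact_mod_cast hm.2
      rw [pow_succ] at this
      linarith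
    have hn1 : N ≤ n := by rw [hNd]; exact_mod_cast hn.1
    have hn2 : (n : ℝ) < 2 * N := by
      have : (n : ℝ) < 2 ^ (j + 1) := by exact_mod_cast hn.2
      rw [pow_succ] at this
      linarith
    refine inter_le hα hM hMN hm1 hm2 hn1 hn2 ?_ ?_
    · refine le_trans ?_ (Nat.le_ceil _)
      have : (m : ℝ) ^ α ≤ (2 * M) ^ α :=
        Real.rpow_le_rpow (Nat.cast_nonneg _) hm2.le (by linarith)
      linarith
    · refine le_trans ?_ (Nat.le_ceil _)
      have : (n : ℝ) ^ α ≤ (2 * N) ^ α :=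
        Real.rpow_le_rpow (Nat.cast_nonneg _) hn2.le (by linarith)
      linarith
  have hcount : ((FF α i j K L).card : ℝ) ≤
      6 * cc α * √(M * N * (M ^ α * N ^ α)) * (1 + Real.log (2 * M)) +
      128 * 2 ^ α * cc α ^ 2 * (N * N ^ α) := by
    classical
    apply count hα hM hN
    intro z hz
    unfold FF at hz
    rw [mem_filter] at hz
    exact hz.2
  have hsq : √(M * N * (M ^ α * N ^ α)) * (2 / (N * N ^ α)) ≤ 2 * (M / N) := by
    have e : √(M * N * (M ^ α * N ^ α)) * (2 / (N * N ^ α)) =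
        2 * (√(M * N * (M ^ α * N ^ α)) / (N * N ^ α)) := by ring
    rw [e]
    apply mul_le_mul_of_nonneg_left _ (by norm_num)
    rw [div_le_iff₀ (by positivity)]
    apply Real.sqrt_le_iff.2
    refine ⟨by positivity, ?_⟩
    have e2 : M * N * (M ^ α * N ^ α) = (M * N * (N ^ α) ^ 2) * (M ^ α / N ^ α) := by
      field_simp
    rw [e2]
    calc M * N * (N ^ α) ^ 2 * (M ^ α / N ^ α) ≤ M * N * (N ^ α) ^ 2 * (M / N) :=
          mul_le_mul_of_nonneg_left hMNa (by positivity)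
      _ = (M / N * (N * N ^ α)) ^ 2 := by
          field_simp
  have hlog : Real.log (2 * M) ≤ i + 1 := by
    have e : 2 * M = 2 ^ (i + 1) := by rw [hMd, pow_succ]; ring
    rw [e, Real.log_pow]
    have h2 : Real.log 2 ≤ 1 := by linarith [Real.log_two_lt_d9]
    push_cast
    have : (0 : ℝ) ≤ (i : ℝ) + 1 := by positivity
    nlinarith
  have hlog0 : 0 ≤ 1 + Real.log (2 * M) := by
    have := Real.log_nonneg (show 1 ≤ 2 * M by linarith)
    linarith
  have hpw : M / N = ((1 : ℝ) / 2) ^ (j - i) := by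
    rw [hMd, hNd, one_div, inv_pow, div_eq_iff (by positivity)]
    rw [eq_comm, inv_mul_eq_iff_eq_mul₀ (by positivity), ← pow_add]
    congr 1
    omega
  have h3 : blk α i j ≤ 6 * cc α * (2 * (M / N)) * (1 + Real.log (2 * M)) +
      256 * 2 ^ α * cc α ^ 2 := by
    refine hblk.trans ?_
    calc ((FF α i j K L).card : ℝ) * (2 / (N * N ^ α)) ≤
        (6 * cc α * √(M * N * (M ^ α * N ^ α)) * (1 + Real.log (2 * M)) +
          128 * 2 ^ α * cc α ^ 2 * (N * N ^ α)) * (2 / (N * N ^ α)) :=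
          mul_le_mul_of_nonneg_right hcount (by positivity)
      _ = 6 * cc α * (√(M * N * (M ^ α * N ^ α)) * (2 / (N * N ^ α))) *
            (1 + Real.log (2 * M)) + 256 * 2 ^ α * cc α ^ 2 := by
          field_simp
          ring
      _ ≤ _ := by
          have := mul_le_mul_of_nonneg_right (mul_le_mul_of_nonneg_left hsq
            (show 0 ≤ 6 * cc α by positivity)) hlog0
          linarith
  rw [hpw] at h3
  set w : ℝ := ((1 : ℝ) / 2) ^ (j - i) with hw
  have hw0 : 0 < w := by positivity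
  have h2α : (0 : ℝ) < 2 ^ α := Real.rpow_pos_of_pos (by norm_num) _
  have hi0 : (0 : ℝ) ≤ i := Nat.cast_nonneg _
  calc blk α i j ≤ 6 * cc α * (2 * w) * (1 + Real.log (2 * M)) + 256 * 2 ^ α * cc α ^ 2 := h3
    _ ≤ 6 * cc α * (2 * w) * (1 + (i + 1)) + 256 * 2 ^ α * cc α ^ 2 := by
        have : 6 * cc α * (2 * w) * (1 + Real.log (2 * M)) ≤
            6 * cc α * (2 * w) * (1 + (i + 1)) :=
          mul_le_mul_of_nonneg_left (by linarith) (by positivity)
        linarith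
    _ ≤ _ := by
        unfold C1
        have a1 : 0 ≤ 12 * cc α := by positivity
        have a2 : 0 ≤ 256 * 2 ^ α * cc α ^ 2 * ((i + 2) * w) := by positivity
        nlinarith

/-- the sum over all blocks -/
theorem blk_sum {α : ℝ} (hα : 1 ≤ α) {J : ℕ} (hJ : 2 ≤ J) :
    ∑ i ∈ Ico J (2 * J), ∑ j ∈ Ico J (2 * J), blk α i j ≤ C1 α * 13 * (J : ℝ) ^ 2 := by
  have hC := C1_pos α
  have hJ0 : (2 : ℝ) ≤ J := by exact_mod_cast hJ
  have h1 : ∀ i ∈ Ico J (2 * J), ∀ j ∈ Ico J (2 * J), blk α i j ≤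
      C1 α * ((2 * J + 2) * (((1 : ℝ) / 2) ^ (i - j) * ((1 : ℝ) / 2) ^ (j - i)) + 1) := by
    intro i hi j hj
    rw [mem_Ico] at hi hj
    rcases Nat.le_total i j with h | h
    · refine (blk_le hα (by omega) h).trans ?_
      apply mul_le_mul_of_nonneg_left _ hC.le
      have e : i - j = 0 := by omega
      rw [e, pow_zero, one_mul]
      have hw : 0 < ((1 : ℝ) / 2) ^ (j - i) := by positivity
      have : (i : ℝ) ≤ 2 * J := by exact_mod_cast hi.2.le
      nlinarith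
    · rw [blk_comm]
      refine (blk_le hα (by omega) h).trans ?_
      apply mul_le_mul_of_nonneg_left _ hC.le
      have e : j - i = 0 := by omega
      rw [e, pow_zero, mul_one]
      have hw : 0 < ((1 : ℝ) / 2) ^ (i - j) := by positivity
      have : (j : ℝ) ≤ 2 * J := by exact_mod_cast hj.2.le
      nlinarith
  calc ∑ i ∈ Ico J (2 * J), ∑ j ∈ Ico J (2 * J), blk α i j ≤
      ∑ i ∈ Ico J (2 * J), ∑ j ∈ Ico J (2 * J),
        C1 α * ((2 * J + 2) * (((1 : ℝ) / 2) ^ (i - j) * ((1 : ℝ) / 2) ^ (j - i)) + 1) :=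
        sum_le_sum fun i hi => sum_le_sum fun j hj => h1 i hi j hj
    _ ≤ ∑ i ∈ Ico J (2 * J), C1 α * ((2 * J + 2) * 3 + J) := by
        apply sum_le_sum
        intro i _
        rw [← mul_sum, sum_add_distrib, ← mul_sum]
        apply mul_le_mul_of_nonneg_left _ hC.le
        have h2 : ∑ j ∈ Ico J (2 * J), ((1 : ℝ) / 2) ^ (i - j) * ((1 : ℝ) / 2) ^ (j - i) ≤ 3 := by
          refine le_trans ?_ (w_sum i (2 * J))
          apply sum_le_sum_of_subset_of_nonneg
          · intro x hx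
            rw [mem_Ico] at hx
            rw [mem_range]
            exact hx.2
          · intro x _ _
            positivity
        have h3 : ∑ j ∈ Ico J (2 * J), (1 : ℝ) = J := by
          rw [sum_const, Nat.card_Ico, nsmul_eq_mul, mul_one]
          congr 1
          omega
        rw [h3]
        have : (0 : ℝ) ≤ 2 * J + 2 := by positivity
        nlinarith
    _ = J * (C1 α * ((2 * J + 2) * 3 + J)) := by
        rw [sum_const, Nat.card_Ico, nsmul_eq_mul]
        congr 2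
        omega
    _ ≤ C1 α * 13 * (J : ℝ) ^ 2 := by
        have : (J : ℝ) * (C1 α * ((2 * J + 2) * 3 + J)) = C1 α * (J * ((2 * J + 2) * 3 + J)) := by
          ring
        rw [this, mul_assoc]
        apply mul_le_mul_of_nonneg_left _ hC.le
        nlinarith

/-- the first moment -/
theorem mom1 {α : ℝ} (hα : 1 ≤ α) {n : ℕ} (hn : 4 ≤ n) : 1 / (4 * (n : ℝ)) ≤ mu.real (Ev α n) := by
  have hn4 : (4 : ℝ) ≤ n := by exact_mod_cast hn
  have hn0 : (0 : ℝ) < n := by linarith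
  have ha := a_ge hα (show 1 ≤ n by omega)
  set a : ℝ := (n : ℝ) ^ α with had
  have ha4 : 4 ≤ a := by linarith
  have ha0 : 0 < a := by linarith
  have hn1 : 1 / (n : ℝ) ≤ 1 / 4 := one_div_le_one_div_of_le (by norm_num) hn4
  have hn2 : 0 < 1 / (n : ℝ) := by positivity
  set T : ℕ := ⌊a / 4⌋₊ with hT
  set k : ℕ → ℝ := fun t => (⌈a⌉₊ : ℝ) + 1 + t with hk
  set I : ℕ → Set ℝ := fun t => Set.Ioo ((k t - 1 / n) / a) ((k t + 1 / n) / a) with hI
  have hTle : (T : ℝ) ≤ a / 4 := Nat.floor_le (by positivity)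
  have hTge : a / 8 ≤ T := by
    have h1 := Nat.lt_floor_add_one (a / 4)
    have h2 : (1 : ℝ) ≤ T := by
      have : 1 ≤ T := Nat.le_floor (by push_cast; linarith)
      exact_mod_cast this
    rw [← hT] at h1
    linarith
  have hc1 : a ≤ (⌈a⌉₊ : ℝ) := Nat.le_ceil _
  have hc2 : (⌈a⌉₊ : ℝ) < a + 1 := Nat.ceil_lt_add_one ha0.le
  have hsub : (⋃ t ∈ range T, I t) ⊆ Ev α n ∩ Set.Icc 1 2 := by
    intro β hβ
    simp only [Set.mem_iUnion, exists_prop] at hβ
    obtain ⟨t, ht, h1, h2⟩ := hβ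
    rw [mem_range] at ht
    have ht' : (t : ℝ) + 1 ≤ T := by exact_mod_cast ht
    rw [div_lt_iff₀ ha0] at h1
    rw [lt_div_iff₀ ha0] at h2
    have hk1 : k t = (⌈a⌉₊ : ℝ) + 1 + t := rfl
    have ht0 : (0 : ℝ) ≤ t := Nat.cast_nonneg _
    refine ⟨?_, ?_, ?_⟩
    · have h3 : dn (β * a) ≤ |β * a - ((⌈a⌉₊ + 1 + t : ℕ) : ℤ)| := dn_le _ _
      have h4 : |β * a - ((⌈a⌉₊ + 1 + t : ℕ) : ℤ)| < 1 / n := by
        push_cast
        rw [hk1] at h1 h2
        rw [abs_lt]
        constructor <;> linarith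
      have h5 : dn (β * a) < 1 / n := lt_of_le_of_lt h3 h4
      rw [lt_div_iff₀ hn0] at h5
      change (n : ℝ) * dn (β * a) < 1
      linarith
    · by_contra hlt
      push Not at hlt
      have : β * a < a := by nlinarith
      rw [hk1] at h1
      linarith
    · by_contra hlt
      push Not at hlt
      have : 2 * a < β * a := by nlinarith
      rw [hk1] at h2
      linarith
  have hdisj : (range T : Set ℕ).PairwiseDisjoint I := by
    intro s _ t _ hst
    rw [Function.onFun, Set.disjoint_left]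
    rintro β ⟨h1, h2⟩ ⟨h3, h4⟩
    rw [div_lt_iff₀ ha0] at h1 h3
    rw [lt_div_iff₀ ha0] at h2 h4
    have hks : k s = (⌈a⌉₊ : ℝ) + 1 + s := rfl
    have hkt : k t = (⌈a⌉₊ : ℝ) + 1 + t := rfl
    rw [hks] at h1 h2
    rw [hkt] at h3 h4
    rcases Nat.lt_or_gt_of_ne hst with h | h
    · have : (s : ℝ) + 1 ≤ t := by exact_mod_cast h
      linarith
    · have : (t : ℝ) + 1 ≤ s := by exact_mod_cast h
      linarith
  have hmeas : ∀ t, MeasurableSet (I t) := fun t => measurableSet_Ioo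
  have hvol : ∀ t, volume (I t) = ENNReal.ofReal (2 / (n * a)) := by
    intro t
    rw [hI]
    simp only
    rw [Real.volume_Ioo]
    congr 1
    field_simp
    ring
  have h1 : mu (Ev α n) = volume (Ev α n ∩ Set.Icc 1 2) := by
    rw [mu, Measure.restrict_apply (ev_meas α n)]
  have h2 : ENNReal.ofReal (T * (2 / (n * a))) ≤ mu (Ev α n) := by
    rw [h1]
    refine le_trans (le_of_eq ?_) (measure_mono hsub)
    rw [measure_biUnion_finset hdisj (fun t _ => hmeas t)]
    simp only [hvol]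
    rw [sum_const, card_range, nsmul_eq_mul, ENNReal.ofReal_mul (Nat.cast_nonneg _),
      ENNReal.ofReal_natCast]
  have h3 : (T : ℝ) * (2 / (n * a)) ≤ mu.real (Ev α n) := by
    rw [Measure.real]
    exact (ENNReal.ofReal_le_iff_le_toReal (measure_ne_top _ _)).1 h2
  refine le_trans ?_ h3
  calc 1 / (4 * (n : ℝ)) = a / 8 * (2 / (n * a)) := by
        field_simp
        norm_num
    _ ≤ _ := mul_le_mul_of_nonneg_right hTge (by positivity)

/-- the first moment over a block -/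
theorem mom1_blk {α : ℝ} (hα : 1 ≤ α) {i : ℕ} (hi : 2 ≤ i) :
    1 / 8 ≤ ∑ n ∈ Ico (2 ^ i) (2 ^ (i + 1)), mu.real (Ev α n) := by
  have h1 : ∀ n ∈ Ico (2 ^ i) (2 ^ (i + 1)), 1 / (8 * (2 : ℝ) ^ i) ≤ mu.real (Ev α n) := by
    intro n hn
    rw [mem_Ico] at hn
    have h4 : 4 ≤ n := by
      calc 4 = 2 ^ 2 := by norm_num
        _ ≤ 2 ^ i := Nat.pow_le_pow_right (by norm_num) hi
        _ ≤ n := hn.1
    refine le_trans ?_ (mom1 hα h4)
    have hn0 : (0 : ℝ) < n := by
      have : 0 < n := by omega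
      exact_mod_cast this
    apply one_div_le_one_div_of_le (by positivity)
    have : (n : ℝ) < 2 ^ (i + 1) := by exact_mod_cast hn.2
    rw [pow_succ] at this
    linarith
  calc (1 : ℝ) / 8 = ∑ n ∈ Ico (2 ^ i) (2 ^ (i + 1)), 1 / (8 * (2 : ℝ) ^ i) := by
        rw [sum_const, Nat.card_Ico, nsmul_eq_mul]
        have e : 2 ^ (i + 1) - 2 ^ i = 2 ^ i := by rw [pow_succ]; omega
        rw [e]
        push_cast
        field_simp
    _ ≤ _ := sum_le_sum h1

/-- the measure of a tail union -/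
theorem tail_ge {α : ℝ} (hα : 1 ≤ α) {J : ℕ} (hJ : 2 ≤ J) :
    1 / (832 * C1 α) ≤ mu.real (⋃ n ∈ Set.Ici (2 ^ J), Ev α n) := by
  classical
  have hC := C1_pos α
  set s : Finset (Σ _ : ℕ, ℕ) := (Ico J (2 * J)).sigma fun i => Ico (2 ^ i) (2 ^ (i + 1)) with hs
  have hch := Pool.Agent.R335.MK.chung (μ := mu) s (fun x => Ev α x.2) (fun x => ev_meas α x.2)
  have h1 : (J : ℝ) / 8 ≤ ∑ x ∈ s, mu.real (Ev α x.2) := by
    rw [hs, sum_sigma]
    calc (J : ℝ) / 8 = ∑ i ∈ Ico J (2 * J), 1 / 8 := by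
          rw [sum_const, Nat.card_Ico, nsmul_eq_mul]
          have e : 2 * J - J = J := by omega
          rw [e]
          ring
      _ ≤ _ := by
          apply sum_le_sum
          intro i hi
          rw [mem_Ico] at hi
          exact mom1_blk hα (by omega)
  have h2 : ∑ x ∈ s, ∑ y ∈ s, mu.real (Ev α x.2 ∩ Ev α y.2) ≤ C1 α * 13 * (J : ℝ) ^ 2 := by
    refine le_trans (le_of_eq ?_) (blk_sum hα hJ)
    have e1 : ∀ m : ℕ, ∑ y ∈ s, mu.real (Ev α m ∩ Ev α y.2) =
        ∑ j ∈ Ico J (2 * J), ∑ n ∈ Ico (2 ^ j) (2 ^ (j + 1)), mu.real (Ev α m ∩ Ev α n) := by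
      intro m
      rw [hs, sum_sigma]
    simp only [e1]
    rw [hs, sum_sigma]
    refine sum_congr rfl fun i _ => ?_
    unfold blk
    rw [sum_comm]
  have hJ0 : (2 : ℝ) ≤ J := by exact_mod_cast hJ
  have h3 : mu.real (⋃ x ∈ s, Ev α x.2) ≤ mu.real (⋃ n ∈ Set.Ici (2 ^ J), Ev α n) := by
    apply measureReal_mono _ (measure_ne_top _ _)
    intro β hβ
    simp only [Set.mem_iUnion, exists_prop] at hβ ⊢
    obtain ⟨x, hx, hβ⟩ := hβ
    rw [hs, mem_sigma, mem_Ico, mem_Ico] at hx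
    refine ⟨x.2, ?_, hβ⟩
    rw [Set.mem_Ici]
    exact (Nat.pow_le_pow_right (by norm_num) hx.1.1).trans hx.2.1
  have h4 : 0 ≤ mu.real (⋃ x ∈ s, Ev α x.2) := measureReal_nonneg
  have h5 : ((J : ℝ) / 8) ^ 2 ≤ C1 α * 13 * (J : ℝ) ^ 2 * mu.real (⋃ x ∈ s, Ev α x.2) := by
    calc ((J : ℝ) / 8) ^ 2 ≤ (∑ x ∈ s, mu.real (Ev α x.2)) ^ 2 :=
          pow_le_pow_left₀ (by positivity) h1 2
      _ ≤ _ := hch
      _ ≤ _ := mul_le_mul_of_nonneg_right h2 h4
  refine le_trans ?_ h3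
  rw [div_le_iff₀ (by positivity)]
  have hJ2 : (0 : ℝ) < (J : ℝ) ^ 2 := by positivity
  have h6 : (J : ℝ) ^ 2 * 1 ≤
      (J : ℝ) ^ 2 * (mu.real (⋃ x ∈ s, Ev α x.2) * (832 * C1 α)) := by
    nlinarith
  exact le_of_mul_le_mul_left h6 hJ2

/-- **Positive measure.** -/
theorem pos : S_POS := by
  intro α hα h0
  set E : Set ℝ := {β : ℝ | β ∈ Set.Icc (1 : ℝ) 2 ∧
    ∃ᶠ n : ℕ in atTop, (n : ℝ) * dn (β * (n : ℝ) ^ α) < 1} with hE
  set U : ℕ → Set ℝ := fun J => ⋃ n ∈ Set.Ici (2 ^ (J + 2)), Ev α n with hU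
  have hUm : ∀ J, MeasurableSet (U J) := fun J =>
    MeasurableSet.iUnion fun n => MeasurableSet.iUnion fun _ => ev_meas α n
  have hanti : Antitone U := by
    intro J J' h β hβ
    simp only [hU, Set.mem_iUnion, exists_prop, Set.mem_Ici] at hβ ⊢
    obtain ⟨n, hn, hβ⟩ := hβ
    exact ⟨n, (Nat.pow_le_pow_right (by norm_num) (by omega)).trans hn, hβ⟩
  have hC := C1_pos α
  have h1 : ∀ J, ENNReal.ofReal (1 / (832 * C1 α)) ≤ mu (U J) := by
    intro J
    have := tail_ge hα (show 2 ≤ J + 2 by omega)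
    rw [Measure.real] at this
    exact (ENNReal.ofReal_le_iff_le_toReal (measure_ne_top _ _)).2 this
  have h2 : ENNReal.ofReal (1 / (832 * C1 α)) ≤ mu (⋂ J, U J) := by
    have ht := tendsto_measure_iInter_atTop (μ := mu) (fun J => (hUm J).nullMeasurableSet) hanti
      ⟨0, measure_ne_top _ _⟩
    exact ge_of_tendsto' ht h1
  have h3 : mu (⋂ J, U J) = 0 := by
    rw [mu, Measure.restrict_apply (MeasurableSet.iInter hUm)]
    refine measure_mono_null ?_ h0
    rintro β ⟨hβ, hβ2⟩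
    refine ⟨hβ2, ?_⟩
    rw [frequently_atTop]
    intro A
    rw [Set.mem_iInter] at hβ
    have h5 := hβ A
    simp only [hU, Set.mem_iUnion, exists_prop, Set.mem_Ici] at h5
    obtain ⟨n, hn, hβn⟩ := h5
    refine ⟨n, ?_, hβn⟩
    have : A < 2 ^ A := Nat.lt_two_pow_self
    have h6 : 2 ^ A ≤ 2 ^ (A + 2) := Nat.pow_le_pow_right (by norm_num) (by omega)
    omega
  rw [h3] at h2
  have : 0 < ENNReal.ofReal (1 / (832 * C1 α)) := ENNReal.ofReal_pos.2 (by positivity)
  exact absurd h2 (not_le.2 this)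

end Pool.Agent.N656.MH
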