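import Mathlib

/-!
# Metric form of Hall's conjecture: definitions and statements

`dn x` is the distance of `x` to the nearest integer.
-/

set_option autoImplicit false

namespace Pool.Agent.N656.MH

open Filter MeasureTheory Set

/-- the distance to the nearest integer -/
noncomputable def dn (x : ℝ) : ℝ := |x - round x|

/-- `liminf n ‖β n ^ α‖ = 0` -/
def Io (α β : ℝ) : Prop := ∀ c : ℝ, 0 < c → ∃ᶠ n : ℕ in atTop, (n : ℝ) * dn (β * (n : ℝ) ^ α) < c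

/-- positive measure -/
def S_POS : Prop := ∀ α : ℝ, 1 ≤ α →
  volume {β : ℝ | β ∈ Icc (1 : ℝ) 2 ∧ ∃ᶠ n : ℕ in atTop, (n : ℝ) * dn (β * (n : ℝ) ^ α) < 1} ≠ 0

/-- Cassels' lemma (Mathlib: `blimsup_thickening_mul_ae_eq`) -/
def S_CAS : Prop := ∀ α : ℝ, 1 ≤ α → ∀ᵐ β : ℝ,
  (∃ᶠ n : ℕ in atTop, (n : ℝ) * dn (β * (n : ℝ) ^ α) < 1) → Io α β

/-- zero-one law -/
def S_ZERO : Prop := ∀ α : ℝ, 1 ≤ α → volume {β : ℝ | 0 < β ∧ Io α β} ≠ 0 → ∀ᵐ β : ℝ, Io α β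

/-- the convergence part -/
def S_CONV : Prop := ∀ α : ℝ, 1 ≤ α → ∀ ψ : ℕ → ℝ, (∀ n, 0 ≤ ψ n) → Summable ψ →
  ∀ᵐ β : ℝ, ∀ᶠ n : ℕ in atTop, ψ n ≤ dn (β * (n : ℝ) ^ α)

/-- the convergence part for `1 / (n (log n) ^ (1 + ε))`, all `ε` at once -/
def S_LOG : Prop := ∀ α : ℝ, 1 ≤ α → ∀ᵐ β : ℝ, ∀ ε : ℝ, 0 < ε → ∀ᶠ n : ℕ in atTop,
  1 / ((n : ℝ) * (Real.log n) ^ (1 + ε)) ≤ dn (β * (n : ℝ) ^ α)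

/-- Hall's inequality `max (x, y) ≤ C |k| ^ 3` fails for `y ^ 2 = lam x ^ 3 + k`, for every `C` -/
def HallFails (lam : ℝ) : Prop := ∀ C : ℝ, ∃ᶠ x : ℕ in atTop, ∃ y : ℕ,
  (y : ℝ) ^ 2 - lam * (x : ℝ) ^ 3 ≠ 0 ∧
    C * |(y : ℝ) ^ 2 - lam * (x : ℝ) ^ 3| ^ 3 < max (x : ℝ) (y : ℝ)

/-- Hall's inequality with a logarithm -/
def HallLog (lam : ℝ) : Prop := ∀ ε : ℝ, 0 < ε → ∃ C : ℝ, 0 < C ∧ ∀ x y : ℤ, (x ≠ 0 ∨ y ≠ 0) →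
  max |(x : ℝ)| |(y : ℝ)| ≤ C * |(y : ℝ) ^ 2 - lam * (x : ℝ) ^ 3| ^ 3 *
    (Real.log (2 + |(y : ℝ) ^ 2 - lam * (x : ℝ) ^ 3|)) ^ (3 + ε)

/-- from the two halves to Mordell's equation -/
def S_HALL : Prop := (∀ᵐ β : ℝ, Io (3 / 2) β) →
  (∀ᵐ β : ℝ, ∀ ε : ℝ, 0 < ε → ∀ᶠ n : ℕ in atTop,
    1 / ((n : ℝ) * (Real.log n) ^ (1 + ε)) ≤ dn (β * (n : ℝ) ^ (3 / 2 : ℝ))) →
  ∀ᵐ lam : ℝ, 0 < lam → HallFails lam ∧ HallLog lam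

/-- from the two halves to `y ^ q = lam x ^ p + k` -/
def S_GEN : Prop := ∀ p q : ℕ, 1 ≤ q → q ≤ p → (∀ᵐ β : ℝ, Io ((p : ℝ) / q) β) →
  (∀ᵐ β : ℝ, ∀ ε : ℝ, 0 < ε → ∀ᶠ n : ℕ in atTop,
    1 / ((n : ℝ) * (Real.log n) ^ (1 + ε)) ≤ dn (β * (n : ℝ) ^ ((p : ℝ) / q))) →
  ∀ᵐ lam : ℝ, 0 < lam →
    (∀ c : ℝ, 0 < c → ∃ᶠ x : ℕ in atTop, ∃ y : ℕ,
      |(y : ℝ) ^ q - lam * (x : ℝ) ^ p| < c * (x : ℝ) ^ ((p : ℝ) - p / q - 1)) ∧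
    (∀ ε : ℝ, 0 < ε → ∀ᶠ x : ℕ in atTop, ∀ y : ℕ,
      (x : ℝ) ^ ((p : ℝ) - p / q - 1) / (Real.log x) ^ (1 + ε) ≤
        |(y : ℝ) ^ q - lam * (x : ℝ) ^ p|)

end Pool.Agent.N656.MH
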